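import Mathlib

set_option autoImplicit false

namespace Pool.Agent.H.MP_1e8244_lc

open Set Filter Function Cardinal Topology MeasureTheory Order
open scoped ENNReal

/-- slaloms -/
def Slalom : Type := {s : ℕ → Finset ℕ // ∀ n, (s n).card ≤ n}

/-- the relation of being almost always captured -/
def In (x : ℕ → ℕ) (s : Slalom) : Prop := ∀ᶠ k in atTop, x k ∈ s.1 k

/-- the relation of being eventually different -/
def Nev (x y : ℕ → ℕ) : Prop := ∀ᶠ k in atTop, x k ≠ y k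

/-- the ideal generated by the sigma-compact sets -/
def K (S : Set (ℕ → ℕ)) : Prop := ∃ T, IsSigmaCompact T ∧ S ⊆ T

/-- bounding number of the relation `R` modulo the ideal `I` -/
noncomputable def bnd {Y : Type} (R : (ℕ → ℕ) → Y → Prop) (I : Set (ℕ → ℕ) → Prop) :
    Cardinal.{0} :=
  sInf {c | ∃ A : Set ((ℕ → ℕ) → ℕ → ℕ),
    (¬ ∃ g : (ℕ → ℕ) → Y, ∀ f ∈ A, I {x | ¬ R (f x) (g x)}) ∧ #A = c}

def Le (x y : ℕ → ℕ) : Prop := ∀ᶠ k in atTop, x k ≤ y k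

theorem kb {S : Set (ℕ → ℕ)} (h : K S) : ∃ d, ∀ x ∈ S, Le x d := by
  obtain ⟨_, ⟨C, c, rfl⟩, h⟩ := h
  choose b hb using fun n k => ((c n).image (continuous_apply k)).bddAbove
  refine ⟨fun k => ∑ n ∈ Finset.range k, b n k, fun x hx => ?_⟩
  obtain ⟨n, hn⟩ := mem_iUnion.1 (h hx)
  exact (eventually_gt_atTop n).mono fun k c => (hb n k ⟨x, hn, rfl⟩).trans
    (Finset.single_le_sum (f := (b · k)) (fun _ _ => Nat.zero_le _) (Finset.mem_range.2 c))

theorem up {ι : Type} (F : ι → (ℕ → ℕ) → ℕ → ℕ) (h : ∀ g : (ℕ → ℕ) → Slalom,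
    ∀ d : ι → ℕ → ℕ, ¬ ∀ i x, ¬ Le x (d i) → In (F i x) (g x)) : bnd In K ≤ #ι := by
  refine le_trans (csInf_le' ⟨range F, fun ⟨g, c⟩ => ?_, rfl⟩) mk_range_le
  choose d hd using fun i => kb (c _ ⟨i, rfl⟩)
  exact h g d fun i x c => by_contra fun e => c (hd i x e)

theorem av (s : Slalom) : ∃ y, ∀ x, In x s → Nev x y ∧ Le x y ∧ ¬ Le y x :=
  ⟨fun k => (s.1 k).sup id + 1, fun x h => by
    have := h.mono fun k h => Nat.lt_succ_of_le (Finset.le_sup (f := id) h)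
    exact ⟨this.mono fun k h => h.ne, this.mono fun k h => h.le, fun c =>
      let ⟨k, a, b⟩ := (c.and this).exists; b.not_ge a⟩⟩

noncomputable def κ : Cardinal.{0} :=
  sInf {c | ∃ A : Set (ℕ → ℕ), (¬ ∃ s, ∀ x ∈ A, In x s) ∧ #A = c}

theorem cap {ι : Type} (h : #ι < κ) (x : ι → ℕ → ℕ) : ∃ s, ∀ i, In (x i) s := by
  by_contra c
  exact (mk_range_le.trans_lt h).not_ge (csInf_le' ⟨range x, by simpa using c, rfl⟩)

theorem exk : ∃ A : Set (ℕ → ℕ), (¬ ∃ s, ∀ x ∈ A, In x s) ∧ #A = κ :=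
  csInf_mem (s := {c | ∃ A : Set (ℕ → ℕ), (¬ ∃ s, ∀ x ∈ A, In x s) ∧ #A = c})
    ⟨_, univ, fun ⟨s, h⟩ => let ⟨y, c⟩ := av s; (c y (h y trivial)).2.2 (by simp [Le]), rfl⟩

theorem ik : ℵ₀ ≤ κ := by
  obtain ⟨A, h, e⟩ := exk
  refine e ▸ not_lt.1 fun c => h ?_
  obtain ⟨x, hx⟩ := countable_iff_exists_subset_range.1 (lt_aleph0_iff_set_finite.1 c).countable
  refine ⟨⟨fun n => (Finset.range n).image (x · n), fun n => Finset.card_image_le.trans (by simp)⟩,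
    fun y hy => ?_⟩
  obtain ⟨i, rfl⟩ := hx hy
  exact (eventually_gt_atTop i).mono fun n h => Finset.mem_image_of_mem _ (Finset.mem_range.2 h)

noncomputable def ε (n : ℕ) : ℝ≥0∞ := 2⁻¹ ^ n / (n + 1)

theorem ε0 (n : ℕ) : 0 < ε n := ENNReal.div_pos (by simp) (by simp)

theorem nul (μ : Measure (ℕ → ℕ)) (A : ℕ → Set (ℕ → ℕ)) (s : ℕ → Finset ℕ)
    (hs : ∀ n, (s n).card ≤ n + 1) :
    μ {y | ∃ᶠ n in atTop, ∃ c ∈ s n, μ (A c) ≤ ε n ∧ y ∈ A c} = 0 := by
  classical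
  refine measure_setOfPred_frequently_eq_zero (ne_top_of_le_ne_top (b := ∑' n : ℕ, 2⁻¹ ^ n)
    (by simp) (ENNReal.tsum_le_tsum fun n => ?_))
  refine (measure_mono (t := ⋃ c ∈ (s n).filter fun c => μ (A c) ≤ ε n, A c) fun y h => by
    simpa [and_assoc] using h).trans ((measure_biUnion_finset_le _ _).trans
      ((Finset.sum_le_card_nsmul _ _ (ε n) fun c h => (Finset.mem_filter.1 h).2).trans ?_))
  rw [nsmul_eq_mul, ← ENNReal.mul_div_cancel (a := n + 1) (b := 2⁻¹ ^ n) (by simp) (by simp)]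
  exact mul_le_mul_left (by exact_mod_cast (Finset.card_filter_le _ _).trans (hs n)) _

theorem code (μ : Measure (ℕ → ℕ)) [IsFiniteMeasure μ] : ∃ A : ℕ → Set (ℕ → ℕ), ∀ N, μ N = 0 →
    ∃ x : ℕ → ℕ, (∀ n, μ (A (x n)) ≤ ε n) ∧ ∀ y ∈ N, ∃ᶠ n in atTop, y ∈ A (x n) := by
  let B := insert ∅ (TopologicalSpace.countableBasis (ℕ → ℕ))
  have hB := (TopologicalSpace.isBasis_countableBasis (ℕ → ℕ)).insert_empty
  have cB : B.Countable := (TopologicalSpace.countable_countableBasis _).insert _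
  have a := isSetAlgebra_generateSetAlgebra (𝒜 := B)
  obtain ⟨A, hA⟩ := countable_iff_exists_subset_range.1 (countable_generateSetAlgebra cB)
  refine ⟨A, fun N h => ?_⟩
  choose U u1 u2 u3 using fun n : ℕ => N.exists_isOpen_lt_of_lt (μ := μ) (2⁻¹ ^ n)
    (h ▸ ENNReal.pow_pos (by simp) _)
  have : ∀ n, ∃ V : ℕ → Set (ℕ → ℕ), (∀ k, V k ∈ B) ∧ U n = ⋃ k, V k := fun n => by
    obtain ⟨V, v⟩ := (cB.mono (sep_subset _ (· ⊆ U n))).exists_eq_range ⟨∅, .inl rfl, by simp⟩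
    exact ⟨V, fun k => (v.ge ⟨k, rfl⟩).1, (hB.open_eq_sUnion' (u2 n)).trans (v ▸ sUnion_range _)⟩
  choose V v1 v2 using this
  let E : ℕ → Set (ℕ → ℕ) := fun i => disjointed (V i.unpair.1) i.unpair.2
  have : ∑' i, μ (E i) ≠ ∞ := by
    rw [← Nat.pairEquiv.tsum_eq, ENNReal.tsum_prod']
    refine ne_top_of_le_ne_top (b := ∑' n : ℕ, 2⁻¹ ^ n) (by simp) (ENNReal.tsum_le_tsum fun n =>
      le_trans ?_ (u3 n).le)
    rw [v2, ← iUnion_disjointed, measure_iUnion (disjoint_disjointed _)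
      (.disjointed fun k => (hB.isOpen (v1 n k)).measurableSet)]
    simp [E]
  obtain ⟨p, p1, p2⟩ := extraction_forall_of_eventually fun n =>
    (ENNReal.tendsto_sum_nat_add _ this).eventually (ge_mem_nhds (ε0 n))
  choose x hx using fun m => hA (a.biUnion_mem (s := E) (Finset.Ico (p m) (p (m + 1))) fun i _ =>
    a.isSetRing.disjointed_mem (fun k => self_subset_generateSetAlgebra (v1 _ k)) _)
  refine ⟨x, fun n => le_trans (hx n ▸ (measure_mono (iUnion₂_subset fun i h => subset_iUnion_of_subset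
    (i - p n) (by rw [Nat.sub_add_cancel (Finset.mem_Ico.1 h).1]))).trans (measure_iUnion_le _))
    (p2 n), fun y hy => frequently_atTop.2 fun M => ?_⟩
  obtain ⟨k, hk⟩ := mem_iUnion.1 ((v2 (p M)).trans iUnion_disjointed.symm ▸ u1 (p M) hy :)
  have : ∀ i, p M ≤ i → ∃ m ≥ M, p m ≤ i ∧ i < p (m + 1) := fun i h => by
    induction i, h using Nat.le_induction with
    | base => exact ⟨M, le_rfl, le_rfl, p1 M.lt_succ_self⟩
    | succ i h ih =>
      obtain ⟨m, m1, m2, m3⟩ := ih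
      have := p1 (m + 1).lt_succ_self
      by_cases c : i + 1 < p (m + 1)
      exacts [⟨m, m1, by omega, c⟩, ⟨m + 1, by omega, by omega, by simp at *; omega⟩]
  obtain ⟨m, m1, m2⟩ := this _ (Nat.left_le_pair (p M) k)
  exact ⟨m, m1, hx m ▸ mem_iUnion₂.2 ⟨_, Finset.mem_Ico.2 m2, by simpa [E] using hk⟩⟩

theorem addN (μ : Measure (ℕ → ℕ)) [IsFiniteMeasure μ] {ι : Type} (h : #ι < κ)
    (N : ι → Set (ℕ → ℕ)) (hN : ∀ i, μ (N i) = 0) : μ (⋃ i, N i) = 0 := by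
  obtain ⟨A, hA⟩ := code μ
  choose x x1 x2 using fun i => hA _ (hN i)
  obtain ⟨s, hs⟩ := cap h x
  refine measure_mono_null (iUnion_subset fun i y hy => ?_) (nul μ A s.1 fun n =>
    (s.2 n).trans n.le_succ)
  exact ((x2 i y hy).and_eventually (hs i)).mono fun n h => ⟨_, h.2, x1 i n, h.1⟩

theorem ev (μ : Measure (ℕ → ℕ)) [IsFiniteMeasure μ] [NullSingletonClass μ] :
    ∃ g : (ℕ → ℕ) → ℕ → ℕ, ∀ f, μ {y | ¬ Nev f (g y)} = 0 := by
  obtain ⟨A, hA⟩ := countable_iff_exists_subset_range.1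
    (TopologicalSpace.countable_countableBasis (ℕ → ℕ))
  have : ∀ y n, ∃ c, μ (A c) ≤ ε n ∧ y ∈ A c := fun y n => by
    obtain ⟨U, u1, u2, u3⟩ := Set.exists_isOpen_lt_of_lt (μ := μ) {y} (ε n) (by simpa using ε0 n)
    obtain ⟨V, v1, v2, v3⟩ := (TopologicalSpace.isBasis_countableBasis _).exists_subset_of_mem_open
      (u1 rfl) u2
    obtain ⟨c, rfl⟩ := hA v1
    exact ⟨c, (measure_mono v3).trans u3.le, v2⟩
  choose g g1 g2 using this
  refine ⟨g, fun f => measure_mono_null (fun y h => ?_) (nul μ A (fun n => {f n}) (by simp))⟩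
  exact (not_eventually.1 h).mono fun n h => ⟨_, Finset.mem_singleton.2 (not_not.1 h).symm,
    g1 y n, g2 y n⟩

theorem main (μ : Measure (ℕ → ℕ)) [IsProbabilityMeasure μ] [NullSingletonClass μ] :
    bnd In K ≤ bnd Nev fun S => μ S = 0 := by
  refine le_csInf ⟨_, univ, fun ⟨g, h⟩ => by
    simpa [Nev, eventually_false_iff_eq_bot, NeBot.ne, -eventually_atTop] using h g trivial, rfl⟩ ?_
  rintro _ ⟨A, hA, rfl⟩
  have k1 : κ ≤ #A := not_lt.1 fun c => hA <| by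
    choose s hs using fun y => cap c fun f => f.1 y
    choose g hg using av
    exact ⟨fun y => g (s y), fun f h => by simp [fun y => (hg _ _ (hs y ⟨f, h⟩)).1]⟩
  let I := κ.ord.ToType
  have hI : #I = κ := mk_ord_toType _
  have lt : ∀ a : I, #(Iic a) < κ := fun a => (mk_Iic_lt a (by simp [I]) (ik.trans hI.ge)).trans_eq hI
  by_cases c1 : ∃ d : I → ℕ → ℕ, ∀ y, ∃ a, Le y (d a)
  swap
  · obtain ⟨X, x1, x2⟩ := exk
    obtain ⟨e⟩ := Cardinal.eq.1 (hI.trans x2.symm)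
    refine ((up (fun (a : I) _ => e a) fun g d h => c1 ⟨d, fun y => by_contra fun c =>
      x1 ⟨g y, fun x hx => ?_⟩⟩).trans hI.le).trans k1
    simpa using h (e.symm ⟨x, hx⟩) y fun h => c ⟨_, h⟩
  obtain ⟨d, hd⟩ := c1
  have : ∀ a, ∃ y, ∀ b ≤ a, Le (d b) y ∧ ¬ Le y (d b) := fun a => by
    obtain ⟨s, h⟩ := cap (lt a) fun b => d b
    exact (av s).imp fun y c b hb => (c _ (h ⟨b, hb⟩)).2
  choose e he using this
  have e1 : ∀ y, ∃ b, ∀ a, Le (e a) y → a ≤ b := fun y => (hd y).imp fun b h a c =>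
    (not_le.1 fun g => (he a b g).2 ((c.and h).mono fun k h => h.1.trans h.2)).le
  let P : (ℕ → ℕ) → I → ℕ → ℕ := fun x a n => if n % 2 = 0 then x (n / 2) else e a (n / 2)
  have p1 : ∀ x a, (fun n => P x a (2 * n)) = x := fun x a => funext fun n => by simp [P]
  have p2 : ∀ y : ℕ → ℕ, ∃ b, ∀ x a, Le (P x a) y → a ≤ b := fun y =>
    (e1 fun n => y (2 * n + 1)).imp fun b h x a c => h a (((tendsto_atTop_mono (fun n => by
      simp; omega) tendsto_id : Tendsto (fun n => 2 * n + 1) atTop atTop).eventually c).mono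
        fun n h => by simpa [P, Nat.mul_add_div] using h)
  by_cases c2 : ∃ (ι : Type) (N : ι → Set (ℕ → ℕ)), #ι ≤ κ ∧ (∀ i, μ (N i) = 0) ∧ ∀ y, ∃ i, y ∈ N i
  · obtain ⟨ι, N, n1, n2, n3⟩ := c2
    obtain ⟨j⟩ := (le_def _ _).1 (n1.trans hI.ge)
    choose α hα using n3
    choose g' hg using av
    refine up (fun (f : A) y => f.1 fun n => y (2 * n)) fun g d h =>
      hA ⟨fun x => g' (g (P x (j (α x)))), fun f hf => ?_⟩
    obtain ⟨b, hb⟩ := p2 (d ⟨f, hf⟩)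
    refine measure_mono_null (fun x hx => mem_iUnion.2 ⟨⟨α x, hb x _ (by_contra fun c => hx ?_)⟩,
      hα x⟩) (addN μ ((mk_preimage_of_injective j (Iic b) j.injective).trans_lt (lt b))
        (fun i => N i) fun i => n2 i)
    simpa only [p1] using (hg _ _ (h ⟨f, hf⟩ _ c)).1
  have k2 : succ κ ≤ #A := succ_le_of_lt (not_le.1 fun c => hA (by
    obtain ⟨g, hg⟩ := ev μ
    have : ∀ x, ∃ y, ∀ f : A, Nev (f.1 x) (g y) := fun x => by_contra fun h =>
      c2 ⟨A, _, c, fun f => hg (f.1 x), by simpa using h⟩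
    choose y hy using this
    exact ⟨fun x => g (y x), fun f h => by simp [fun x => hy x ⟨f, h⟩]⟩))
  let J := (succ κ).ord.ToType
  have hJ : #J = succ κ := mk_ord_toType _
  obtain ⟨c⟩ := (le_def J (ℕ → ℕ)).1 (hJ ▸ succ_le_of_lt (not_le.1 fun h =>
    c2 ⟨_, fun x => {x}, h, by simp, by simp⟩))
  have lJ : ∀ η : J, #(Iic η) ≤ #I := fun η => (lt_succ_iff.1 ((mk_Iic_lt η (by simp [J])
    ((ik.trans (le_succ _)).trans hJ.ge)).trans_eq hJ)).trans hI.ge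
  have : Nonempty I := let ⟨a, _⟩ := hd 0; ⟨a⟩
  have : Nonempty J := mk_ne_zero_iff.1 (hJ ▸ (succ_pos _).ne')
  have : ∀ η : J, ∃ r : J → I, InjOn r (Iic η) := fun η => by
    obtain ⟨r⟩ := (le_def _ _).1 (lJ η)
    exact ⟨extend Subtype.val r fun _ => Classical.arbitrary _, fun a ha b hb h => by
      rw [show a = (⟨a, ha⟩ : Iic η) from rfl, show b = (⟨b, hb⟩ : Iic η) from rfl,
        Subtype.val_injective.extend_apply, Subtype.val_injective.extend_apply] at h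
      exact congrArg Subtype.val (r.injective h)⟩
  choose r hr using this
  refine le_trans (hJ ▸ up (fun ξ y => e (r (invFun c fun n => y (2 * n)) ξ)) fun g d h => ?_) k2
  choose β hβ using fun ξ => p2 (d ξ)
  obtain ⟨b, hb⟩ := infinite_pigeonhole_card β _ hJ.ge (ik.trans (le_succ _))
    (by rw [(isRegular_succ ik).cof_ord, hI]; exact lt_succ _)
  obtain ⟨T, t1, t2⟩ := le_mk_iff_exists_subset.1 ((le_succ _).trans hb)
  obtain ⟨η, hη⟩ : ∃ η, η ∉ ⋃ t : T, Iic t.1 := (ne_univ_iff_exists_notMem _).1 fun c =>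
    (lt_succ κ).not_ge (by
      have h1 := mk_iUnion_le fun t : T => Iic t.1
      have h2 : ⨆ t : T, #(Iic t.1) ≤ κ := ciSup_le' fun t => (lJ t.1).trans hI.le
      rw [c, mk_univ, hJ, t2] at h1
      exact h1.trans (mul_le_of_le ik le_rfl h2))
  have t3 : T ⊆ Iic η := fun t h => mem_Iic.2 (not_le.1 fun c => hη (mem_iUnion.2 ⟨⟨t, h⟩, c⟩)).le
  obtain ⟨a, ha⟩ : ∃ a, a ∉ Iic b := (ne_univ_iff_exists_notMem _).1 fun c =>
    (lt b).ne (by rw [c, mk_univ, hI])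
  obtain ⟨z, hz⟩ := av (g (P (c η) a))
  obtain ⟨b', hb'⟩ := e1 z
  refine (lt b').not_ge (t2.ge.trans ((mk_image_eq_of_injOn _ _ ((hr η).mono t3)).ge.trans
    (mk_le_mk_of_subset ?_)))
  rintro _ ⟨t, ht, rfl⟩
  have := (hz _ (h t _ fun c => ha ((hβ t _ _ c).trans (t1 ht).le))).2.1
  rw [p1, leftInverse_invFun c.injective] at this
  exact hb' _ this

end Pool.Agent.H.MP_1e8244_lc
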